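import Pool.Agent.H66.SP.Numerics

/-!
# Superpatterns over alphabets of linear size: the saving is at least quadratic in `C - 1`

The construction of helper66 (`Pool/Agent/H66/SP`) with an explicit choice of its parameter `g`: `g` of size `(C - 1)^(-1/2)`.
-/

set_option autoImplicit false

open Finset Pool.Agent.H66.SP

namespace Pool.Agent.H54.SPQ

/-- The upper bound for an admissible value of `g`: the proof of `exists_short` of helper66. -/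
theorem short_of_g (C : ℝ) {g : ℕ} (hg : 0 < g)
    (hδ1 : 1 / ((27 * g : ℕ) * (2 * (27 * g : ℕ) + 1) : ℝ) ≤ (C - 1) / 2)
    (hρδ : (255 / 256 : ℝ) ^ g ≤ 1 / ((27 * g : ℕ) * (2 * (27 * g : ℕ) + 1) : ℝ) / 4) :
    ∃ K : ℕ, ∀ k : ℕ, K ≤ k →
    ∃ n : ℕ, (n : ℝ) < (1 / 2 - (1 / ((27 * g : ℕ) * (2 * (27 * g : ℕ) + 1) : ℝ)) ^ 2 / 16) * (k : ℝ) ^ 2 ∧
      ∃ σ : Fin n → Fin ⌊C * (k : ℝ)⌋₊, ∀ τ : Equiv.Perm (Fin k), ∃ p : Fin k → Fin n,
        StrictMono p ∧ ∀ j j', σ (p j) < σ (p j') ↔ τ j < τ j' := by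
  set w : ℕ := 27 * g with hw
  have hw1 : 27 ≤ w := by omega
  have hwR : (27 : ℝ) ≤ w := by exact_mod_cast hw1
  set L : ℕ := w * (2 * w + 1) with hL
  have hLpos : 0 < L := by positivity
  have hLR : (L : ℝ) = (w : ℝ) * (2 * w + 1) := by rw [hL]; push_cast; ring
  set δ : ℝ := 1 / ((w : ℝ) * (2 * w + 1)) with hδ
  have hδpos : 0 < δ := by positivity
  have hδle : δ ≤ 1 := by
    rw [hδ, div_le_one (by positivity)]
    nlinarith
  have hδL : δ * L = 1 := by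
    rw [hδ, hLR]
    field_simp
  set κ : ℝ := δ ^ 2 / 24 with hκ
  have hκpos : 0 < κ := by positivity
  have hκle : κ ≤ δ / 24 := by
    rw [hκ]
    nlinarith
  -- N'
  obtain ⟨N1, hN1⟩ := exists_nat_ge (((w : ℝ) + 1) / κ)
  set N' : ℕ := N1 + 1 with hN'
  have : NeZero (4 * N') := ⟨by omega⟩
  set N : ℝ := ((4 * N' : ℕ) : ℝ) with hN
  have hNpos : (1 : ℝ) ≤ N := by
    rw [hN]
    have : 1 ≤ 4 * N' := by omega
    exact_mod_cast this
  have hNbig : 4 * (((w : ℝ) + 1) / κ) ≤ N := by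
    rw [hN, hN']
    push_cast
    linarith
  have herr1 : ((w : ℝ) + 1) / (2 * N) ≤ κ / 4 := by
    have h1 : ((w : ℝ) + 1) ≤ N * κ / 4 := by
      have h2 : 4 * (((w : ℝ) + 1) / κ) * κ ≤ N * κ := mul_le_mul_of_nonneg_right hNbig hκpos.le
      have h3 : 4 * (((w : ℝ) + 1) / κ) * κ = 4 * ((w : ℝ) + 1) := by
        field_simp
      linarith
    rw [div_le_iff₀ (by positivity)]
    nlinarith
  set n : ℕ := 4 * (w * (w + 1)) with hn
  set η : ℝ := (κ / 4) / N ^ n with hη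
  have hNn : (1 : ℝ) ≤ N ^ n := one_le_pow₀ hNpos
  have hηpos : 0 < η := by positivity
  have hη1 : η ≤ 1 := by
    rw [hη, div_le_one (by positivity)]
    linarith
  have herr2 : η * N ^ n = κ / 4 := by
    rw [hη]
    field_simp
  obtain ⟨m0, hm0⟩ := exists_gram (4 * N') n hηpos hη1
  obtain ⟨m1, hm1⟩ := exists_nat_ge (8 / κ)
  obtain ⟨k1, hk1⟩ := exists_nat_ge (3 / κ)
  set m2 : ℕ := max m0 m1 + 1 with hm2
  refine ⟨max (max k1 3) (m2 ^ 4), fun k hk => ?_⟩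
  have hk3 : 3 ≤ k := le_trans (le_trans (le_max_right _ _) (le_max_left _ _)) hk
  have hkk1 : k1 ≤ k := le_trans (le_trans (le_max_left _ _) (le_max_left _ _)) hk
  have hkm2 : m2 ^ 4 ≤ k := le_trans (le_max_right _ _) hk
  obtain ⟨m, hmk, hkm⟩ := fourth_root k
  have hm2m : m2 ≤ m := by
    have h1 : m2 ^ 4 < (m + 1) ^ 4 := lt_of_le_of_lt hkm2 hkm
    have h2 := lt_of_pow_lt_pow_left₀ 4 (Nat.zero_le _) h1
    omega
  have hmpos : 0 < m := by omega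
  have hmm0 : m0 ≤ m := by
    have : m0 ≤ max m0 m1 := le_max_left _ _
    omega
  have hmm1 : m1 ≤ m := by
    have : m1 ≤ max m0 m1 := le_max_right _ _
    omega
  obtain ⟨U, hU⟩ := hm0 m hmm0
  have hGram : Gram (4 * N') m (100 * m ^ 4) n η U := hU
  set q : ℕ := k / L with hq
  have hqk : q ≤ k := Nat.div_le_self _ _
  have hq1 : (2 * w + 1) * q ≤ k / w := by
    rw [hq, hL, ← Nat.div_div_eq_div_mul]
    exact Nat.mul_div_le _ _
  have hM : k + q + 1 ≤ 100 * m ^ 4 := by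
    have h1 : (m + 1) ^ 4 ≤ (2 * m) ^ 4 := Nat.pow_le_pow_left (by omega) 4
    have h2 : (2 * m) ^ 4 = 16 * m ^ 4 := by ring
    have h3 : 1 ≤ m ^ 4 := Nat.one_le_pow _ _ hmpos
    omega
  have hkR : (3 : ℝ) ≤ k := by exact_mod_cast hk3
  have hκk : 3 ≤ κ * k := by
    have h1 : 3 / κ ≤ k := hk1.trans (by exact_mod_cast hkk1)
    rw [div_le_iff₀ hκpos] at h1
    linarith
  -- q bounds
  have hqL : (q : ℝ) * L ≤ k := by
    have := Nat.div_mul_le_self k L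
    exact_mod_cast this
  have hqU : (k : ℝ) ≤ (q + 1) * L := by
    have h1 := Nat.lt_div_mul_add (a := k) hLpos
    have h2 : k ≤ (q + 1) * L := by
      rw [hq]
      nlinarith
    exact_mod_cast h2
  have hq2 : (q : ℝ) ≤ δ * k := by
    calc (q : ℝ) = δ * (q * L) := by rw [mul_comm (q : ℝ), ← mul_assoc, hδL, one_mul]
      _ ≤ δ * k := mul_le_mul_of_nonneg_left hqL hδpos.le
  have hq3 : δ * k - 1 ≤ q := by
    have : δ * k ≤ q + 1 := by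
      calc δ * k ≤ δ * ((q + 1) * L) := mul_le_mul_of_nonneg_left hqU hδpos.le
        _ = (q + 1) * (δ * L) := by ring
        _ = q + 1 := by rw [hδL, mul_one]
    linarith
  -- m bound
  have hm3 : (4 : ℝ) * m ^ 3 ≤ κ / 2 * k := by
    have h1 : 8 ≤ κ * m := by
      have h2 : 8 / κ ≤ m := hm1.trans (by exact_mod_cast hmm1)
      rw [div_le_iff₀ hκpos] at h2
      linarith
    have h2 : (m : ℝ) ^ 4 ≤ k := by exact_mod_cast hmk
    have h3 : (0 : ℝ) ≤ (m : ℝ) ^ 3 := by positivity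
    calc (4 : ℝ) * m ^ 3 ≤ (κ * m) / 2 * m ^ 3 := by nlinarith
      _ = κ / 2 * m ^ 4 := by ring
      _ ≤ κ / 2 * k := mul_le_mul_of_nonneg_left h2 (by positivity)
  set r : ℕ := k + q + 1 + 4 * m ^ 3 with hr
  have hrR : (r : ℝ) ≤ (1 + δ + κ) * k := by
    rw [hr]
    push_cast
    nlinarith
  have hrC : r ≤ ⌊C * (k : ℝ)⌋₊ := by
    apply Nat.le_floor
    refine hrR.trans ?_
    apply mul_le_mul_of_nonneg_right _ (Nat.cast_nonneg k)
    linarith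
  -- T
  set ρ : ℝ := (255 / 256 : ℝ) ^ g with hρ
  have hρpos : 0 < ρ := by positivity
  have hρ1 : ρ ≤ δ / 4 := hρδ
  set dB : ℝ := (k : ℝ) / 2 - (q : ℝ) * ((1 - ρ) / 2) +
          k * (((w : ℝ) + 1) / (2 * N) + η * N ^ n) with hdB
  set T : ℕ := ⌊dB⌋₊ + 1 with hT
  have hdT : dB < T := by
    rw [hT]
    push_cast
    exact Nat.lt_floor_add_one dB
  have hdBnn : 0 ≤ dB := by
    rw [hdB, herr2]
    have h1 : (q : ℝ) ≤ k := by exact_mod_cast hqk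
    have h2 : 0 ≤ (k : ℝ) * (((w : ℝ) + 1) / (2 * N) + κ / 4) := by positivity
    have h3 : (q : ℝ) * ((1 - ρ) / 2) ≤ k * (1 / 2) := by
      apply mul_le_mul h1 _ _ (Nat.cast_nonneg k)
      · linarith
      · have : ρ ≤ 1 := by linarith
        linarith
    linarith
  have hTR : (T : ℝ) ≤ (1 / 2 - δ / 2 + δ ^ 2 / 8 + κ) * k := by
    have h1 : (T : ℝ) ≤ dB + 1 := by
      rw [hT]
      push_cast
      linarith [Nat.floor_le hdBnn]
    have h2 : dB ≤ (k : ℝ) / 2 - (δ * k - 1) * ((1 - δ / 4) / 2) + k * (κ / 2) := by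
      rw [hdB, herr2]
      have h3 : (δ * k - 1) * ((1 - δ / 4) / 2) ≤ (q : ℝ) * ((1 - ρ) / 2) := by
        have h4 : (δ * k - 1) * ((1 - δ / 4) / 2) ≤ (q : ℝ) * ((1 - δ / 4) / 2) :=
          mul_le_mul_of_nonneg_right hq3 (by linarith)
        have h5 : (q : ℝ) * ((1 - δ / 4) / 2) ≤ (q : ℝ) * ((1 - ρ) / 2) :=
          mul_le_mul_of_nonneg_left (by linarith) (Nat.cast_nonneg q)
        linarith
      have h6 : (k : ℝ) * (((w : ℝ) + 1) / (2 * N) + κ / 4) ≤ k * (κ / 2) :=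
        mul_le_mul_of_nonneg_left (by linarith) (Nat.cast_nonneg k)
      linarith
    have h7 : (1 - δ / 4) / 2 ≤ 1 / 2 := by linarith
    nlinarith
  refine ⟨r * T, ?_, ?_⟩
  · push_cast
    have hk2 : (0 : ℝ) < (k : ℝ) ^ 2 := by positivity
    have hB0 : (0 : ℝ) ≤ 1 / 2 - δ / 2 + δ ^ 2 / 8 + κ := by
      have : 0 ≤ δ ^ 2 / 8 := by positivity
      linarith
    have h1 : (r : ℝ) * T ≤ ((1 + δ + κ) * k) * ((1 / 2 - δ / 2 + δ ^ 2 / 8 + κ) * k) :=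
      mul_le_mul hrR hTR (Nat.cast_nonneg T) (by positivity)
    have h2 : (1 + δ + κ) * (1 / 2 - δ / 2 + δ ^ 2 / 8 + κ) ≤ 1 / 2 - δ ^ 2 / 12 := by
      have e1 : (1 + δ + κ) * (1 / 2 - δ / 2 + δ ^ 2 / 8 + κ) =
          (1 / 2 - 3 * δ ^ 2 / 8 + δ ^ 3 / 8) +
            κ * ((1 / 2 - δ / 2 + δ ^ 2 / 8) + (1 + δ + κ)) := by ring
      rw [e1]
      have h3 : δ ^ 3 ≤ δ ^ 2 := pow_le_pow_of_le_one hδpos.le hδle (by norm_num)
      have h4 : (1 / 2 - δ / 2 + δ ^ 2 / 8) + (1 + δ + κ) ≤ 4 := by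
        have : δ ^ 2 ≤ 1 := pow_le_one₀ hδpos.le hδle
        linarith
      have h5 : κ * ((1 / 2 - δ / 2 + δ ^ 2 / 8) + (1 + δ + κ)) ≤ κ * 4 :=
        mul_le_mul_of_nonneg_left h4 hκpos.le
      have h6 : κ * 4 = δ ^ 2 / 6 := by rw [hκ]; ring
      linarith
    calc (r : ℝ) * T ≤ ((1 + δ + κ) * k) * ((1 / 2 - δ / 2 + δ ^ 2 / 8 + κ) * k) := h1
      _ = ((1 + δ + κ) * (1 / 2 - δ / 2 + δ ^ 2 / 8 + κ)) * k ^ 2 := by ring
      _ ≤ (1 / 2 - δ ^ 2 / 12) * k ^ 2 := mul_le_mul_of_nonneg_right h2 hk2.le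
      _ < (1 / 2 - δ ^ 2 / 16) * k ^ 2 := by
          apply mul_lt_mul_of_pos_right _ hk2
          have : 0 < δ ^ 2 := by positivity
          linarith
  · exact exists_superpattern hηpos hGram hmpos hg hw (le_refl n) hk3 hq1 hM (le_refl r) hrC hdT



/-- the proportion of additional letters -/
noncomputable def dg (g : ℕ) : ℝ := 1 / ((27 * g : ℕ) * (2 * (27 * g : ℕ) + 1) : ℝ)

lemma dg_pos {g : ℕ} (hg : 0 < g) : 0 < dg g := by
  unfold dg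
  have : (0 : ℝ) < ((27 * g : ℕ) : ℝ) := by exact_mod_cast (by omega : 0 < 27 * g)
  positivity

lemma dg_step {g : ℕ} (hg : 0 < g) : dg g ≤ 4 * dg (g + 1) := by
  unfold dg
  have h1 : (1 : ℝ) ≤ g := by exact_mod_cast hg
  push_cast
  rw [← sub_nonneg, mul_one_div, div_sub_div _ _ (by positivity) (by positivity)]
  apply div_nonneg _ (by positivity)
  nlinarith [mul_nonneg (sub_nonneg.2 h1) (sub_nonneg.2 h1)]

/-- quantitative choice of `g` -/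
lemma exists_g_quant : ∃ κ : ℝ, 0 < κ ∧ ∀ c : ℝ, 0 < c → c ≤ 1 → ∃ g : ℕ, 0 < g ∧ dg g ≤ c ∧
    (255 / 256 : ℝ) ^ g ≤ dg g / 4 ∧ κ * c ≤ dg g := by
  have h1 : Filter.Tendsto (fun n : ℕ => (n : ℝ) ^ 2 * (255 / 256 : ℝ) ^ n) Filter.atTop
      (nhds 0) := tendsto_pow_const_mul_const_pow_of_abs_lt_one 2 (by
        rw [abs_of_pos (by norm_num)]; norm_num)
  have h2 : ∀ᶠ n : ℕ in Filter.atTop, (n : ℝ) ^ 2 * (255 / 256 : ℝ) ^ n < 1 / 5940 :=
    h1.eventually (gt_mem_nhds (by norm_num))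
  obtain ⟨n0, hn0⟩ := Filter.eventually_atTop.mp h2
  have hρ : ∀ g : ℕ, n0 ≤ g → 0 < g → (255 / 256 : ℝ) ^ g ≤ dg g / 4 := by
    intro g hg hg0
    have hg1 : (1 : ℝ) ≤ g := by exact_mod_cast hg0
    have h3 := hn0 g hg
    unfold dg
    rw [div_div, le_div_iff₀ (by positivity)]
    push_cast
    have hρ : (0 : ℝ) < (255 / 256 : ℝ) ^ g := by positivity
    have h4 : 27 * (g : ℝ) * (2 * (27 * (g : ℝ)) + 1) * 4 ≤ 5940 * (g : ℝ) ^ 2 := by nlinarith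
    calc (255 / 256 : ℝ) ^ g * (27 * (g : ℝ) * (2 * (27 * (g : ℝ)) + 1) * 4)
        ≤ (255 / 256 : ℝ) ^ g * (5940 * (g : ℝ) ^ 2) := mul_le_mul_of_nonneg_left h4 hρ.le
      _ = 5940 * ((g : ℝ) ^ 2 * (255 / 256 : ℝ) ^ g) := by ring
      _ ≤ 1 := by linarith
  have hd1 : dg (n0 + 1) ≤ 1 := by
    unfold dg
    push_cast
    rw [div_le_one (by positivity)]
    nlinarith [(Nat.cast_nonneg n0 : (0 : ℝ) ≤ n0)]
  refine ⟨min (dg (n0 + 1)) (1 / 4), lt_min (dg_pos (Nat.succ_pos _)) (by norm_num), fun c hc hc1 => ?_⟩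
  have hex : ∃ m : ℕ, dg (n0 + 1 + m) ≤ c := by
    obtain ⟨m, hm⟩ := exists_nat_ge (1 / c)
    refine ⟨m, ?_⟩
    have h3 : 1 ≤ c * m := by
      rw [div_le_iff₀ hc] at hm
      linarith
    unfold dg
    have hn : (0 : ℝ) ≤ n0 := Nat.cast_nonneg _
    have hm0 : (0 : ℝ) ≤ m := Nat.cast_nonneg _
    rw [div_le_iff₀ (by positivity)]
    push_cast
    have h4 : (m : ℝ) ≤ 27 * ((n0 : ℝ) + 1 + m) * (2 * (27 * ((n0 : ℝ) + 1 + m)) + 1) := by nlinarith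
    calc (1 : ℝ) ≤ c * m := h3
      _ ≤ _ := mul_le_mul_of_nonneg_left h4 hc.le
  classical
  set m := Nat.find hex with hm
  have hm1 : dg (n0 + 1 + m) ≤ c := Nat.find_spec hex
  refine ⟨n0 + 1 + m, by omega, hm1, hρ _ (by omega) (by omega), ?_⟩
  rcases Nat.eq_zero_or_pos m with h0 | h0
  · rw [h0, add_zero]
    calc min (dg (n0 + 1)) (1 / 4) * c ≤ dg (n0 + 1) * 1 :=
          mul_le_mul (min_le_left _ _) hc1 hc.le (dg_pos (Nat.succ_pos _)).le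
      _ = dg (n0 + 1) := mul_one _
  · have h3 : ¬ dg (n0 + 1 + (m - 1)) ≤ c := Nat.find_min hex (by omega)
    have h4 := dg_step (g := n0 + 1 + (m - 1)) (by omega)
    have e1 : n0 + 1 + (m - 1) + 1 = n0 + 1 + m := by omega
    rw [e1] at h4
    have h5 : min (dg (n0 + 1)) (1 / 4) * c ≤ (1 / 4) * c :=
      mul_le_mul_of_nonneg_right (min_le_right _ _) hc.le
    linarith

/-- short superpatterns with a saving at least quadratic in `C - 1` -/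
theorem exists_short_quad : ∃ c₀ : ℝ, 0 < c₀ ∧ ∀ C : ℝ, 1 < C → ∃ K : ℕ, ∀ k : ℕ, K ≤ k →
    ∃ n : ℕ, (n : ℝ) < (1 / 2 - c₀ * min (C - 1) 1 ^ 2) * (k : ℝ) ^ 2 ∧
      ∃ σ : Fin n → Fin ⌊C * (k : ℝ)⌋₊, ∀ τ : Equiv.Perm (Fin k), ∃ p : Fin k → Fin n,
        StrictMono p ∧ ∀ j j', σ (p j) < σ (p j') ↔ τ j < τ j' := by
  obtain ⟨κ, hκ, hg⟩ := exists_g_quant
  refine ⟨κ ^ 2 / 64, by positivity, fun C hC => ?_⟩
  have hm0 : 0 < min (C - 1) 1 := lt_min (by linarith) one_pos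
  have hm1 : min (C - 1) 1 ≤ 1 := min_le_right _ _
  have hm2 : min (C - 1) 1 ≤ C - 1 := min_le_left _ _
  obtain ⟨g, hg0, hg1, hg2, hg3⟩ := hg (min (C - 1) 1 / 2) (by linarith) (by linarith)
  obtain ⟨K, hK⟩ := short_of_g C hg0 (hg1.trans (by linarith)) hg2
  refine ⟨K, fun k hk => ?_⟩
  obtain ⟨n, hn, hσ⟩ := hK k hk
  refine ⟨n, lt_of_lt_of_le hn ?_, hσ⟩
  apply mul_le_mul_of_nonneg_right _ (by positivity)
  have h1 : (κ * (min (C - 1) 1 / 2)) ^ 2 ≤ dg g ^ 2 := by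
    apply pow_le_pow_left₀ (by positivity) hg3
  have h2 : dg g ^ 2 = (1 / ((27 * g : ℕ) * (2 * (27 * g : ℕ) + 1) : ℝ)) ^ 2 := rfl
  rw [← h2]
  have h3 : (κ * (min (C - 1) 1 / 2)) ^ 2 = κ ^ 2 * min (C - 1) 1 ^ 2 / 4 := by ring
  rw [h3] at h1
  linarith

end Pool.Agent.H54.SPQ
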